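import Mathlib

/-!
# Edge-transitivity under fold involutions does not imply cut-percolation
-/

set_option autoImplicit false

namespace Pool.Agent.Results.MP_98b297_co.TwoHeawoodGraphs

open Equiv

/-- A bigraph with parts `V₁` and `V₂`: `E v w` says that `(v, w)` is an edge. -/
structure Bigraph (V₁ V₂ : Type) where
  E : V₁ → V₂ → Prop

namespace Bigraph

variable {V₁ V₂ : Type} (G : Bigraph V₁ V₂)

/-- the set of the edges -/
def edges : Set (V₁ × V₂) := {e | G.E e.1 e.2}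

/-- the adjacency of vertices -/
def adj : V₁ ⊕ V₂ → V₁ ⊕ V₂ → Prop
  | Sum.inl v, Sum.inr w => G.E v w
  | Sum.inr w, Sum.inl v => G.E v w
  | _, _ => False

/-- the underlying bipartite graph -/
def graph : SimpleGraph (V₁ ⊕ V₂) where
  Adj := G.adj
  symm := ⟨by
    rintro (v | w) (v' | w') h
    · exact h
    · exact h
    · exact h
    · exact h⟩
  loopless := ⟨by
    rintro (v | w) h
    · exact h
    · exact h⟩

/-- the automorphisms of the graph which preserve both parts -/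
def Aut : Subgroup (Perm V₁ × Perm V₂) where
  carrier := {φ | ∀ v w, G.E (φ.1 v) (φ.2 w) ↔ G.E v w}
  mul_mem' := by
    intro φ ψ hφ hψ v w
    exact (hφ _ _).trans (hψ _ _)
  one_mem' := fun v w => Iff.rfl
  inv_mem' := by
    intro φ hφ v w
    have := hφ (φ.1.symm v) (φ.2.symm w)
    simp only [Equiv.apply_symm_apply] at this
    exact this.symm

/-- the action on the vertices -/
def act (φ : Perm V₁ × Perm V₂) : V₁ ⊕ V₂ → V₁ ⊕ V₂ := Sum.map φ.1 φ.2

/-- the fixed vertices -/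
def fixed (φ : Perm V₁ × Perm V₂) : Set (V₁ ⊕ V₂) := {x | act φ x = x}

/-- `G - Fix(φ)` -/
def rest (φ : Perm V₁ × Perm V₂) : SimpleGraph ((fixed φ)ᶜ : Set (V₁ ⊕ V₂)) :=
  G.graph.induce ((fixed φ)ᶜ : Set (V₁ ⊕ V₂))

/-- `φ` is a cut-involution -/
def IsCutInvolution (φ : Perm V₁ × Perm V₂) : Prop :=
  φ ∈ G.Aut ∧ φ ≠ 1 ∧ φ * φ = 1 ∧ ¬ (G.rest φ).Preconnected

/-- `(φ, L)` is a fold: `φ` is a cut-involution, `L` is a union of connected components of
`G - Fix(φ)`, and `L`, `Fix(φ)`, `φ(L)` partition the set of the vertices. -/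
def IsFold (φ : Perm V₁ × Perm V₂) (L : Set (V₁ ⊕ V₂)) : Prop :=
  G.IsCutInvolution φ ∧
  (∃ C : Set (G.rest φ).ConnectedComponent,
    L = {x | ∃ h : x ∈ (fixed φ)ᶜ, (G.rest φ).connectedComponentMk ⟨x, h⟩ ∈ C}) ∧
  Disjoint L (fixed φ) ∧ Disjoint L (act φ '' L) ∧ Disjoint (fixed φ) (act φ '' L) ∧
  L ∪ fixed φ ∪ act φ '' L = Set.univ

open Classical in
/-- the left-folding map `φ_L` -/
noncomputable def foldMap (φ : Perm V₁ × Perm V₂) (L : Set (V₁ ⊕ V₂)) (x : V₁ ⊕ V₂) : V₁ ⊕ V₂ :=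
  if x ∈ L then x else act φ x

/-- the preimage `φ_L⁻¹(F)` of a set of edges `F` -/
def preimage (φ : Perm V₁ × Perm V₂) (L : Set (V₁ ⊕ V₂)) (F : Set (V₁ × V₂)) : Set (V₁ × V₂) :=
  {e | e ∈ G.edges ∧ ∃ f ∈ F, foldMap φ L (Sum.inl e.1) = Sum.inl f.1 ∧
    foldMap φ L (Sum.inr e.2) = Sum.inr f.2}

/-- `G` is cut-percolating: there is a sequence `S 0, …, S m` of sets of edges, where `S 0` has
exactly one element, `S m` is the set of all edges and `S (i + 1) = φ_L⁻¹(S i)` for some fold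
`(φ, L)`. -/
def CutPercolating : Prop :=
  ∃ (m : ℕ) (S : ℕ → Set (V₁ × V₂)), (∃ e ∈ G.edges, S 0 = {e}) ∧ S m = G.edges ∧
    ∀ i < m, ∃ φ L, G.IsFold φ L ∧ S (i + 1) = G.preimage φ L (S i)

/-- the group `Γ_fold(G)` generated by the cut-involutions that extend to a fold -/
def foldGroup : Subgroup (Perm V₁ × Perm V₂) := Subgroup.closure {φ | ∃ L, G.IsFold φ L}

/-- `G` has an edge, and `Γ_fold(G)` is transitive on the edges. -/
def FoldTransitive : Prop :=
  G.edges.Nonempty ∧ ∀ e ∈ G.edges, ∀ f ∈ G.edges, ∃ g ∈ G.foldGroup,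
    g.1 e.1 = f.1 ∧ g.2 e.2 = f.2

end Bigraph

open Bigraph

/-- incidence of points and lines of the Fano plane -/
def Inc (x y : ZMod 7) : Prop := y - x = 1 ∨ y - x = 2 ∨ y - x = 4

instance (x y : ZMod 7) : Decidable (Inc x y) := inferInstanceAs (Decidable (_ ∨ _ ∨ _))

/-- Two disjoint copies of the incidence graph of the Fano plane (the Heawood graph). -/
def twoHeawood : Bigraph (Bool × ZMod 7) (Bool × ZMod 7) where
  E v w := v.1 = w.1 ∧ Inc v.2 w.2

theorem f1 : ∀ x x' : ZMod 7, x ≠ x' → ∃ y, Inc x y ∧ Inc x' y := by decide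
theorem f1' : ∀ x x' y y' : ZMod 7, x ≠ x' → Inc x y → Inc x' y → Inc x y' → Inc x' y' → y = y' := by
  decide
theorem f3 : ∀ m l : ZMod 7, l ≠ m → ∃ a b, a ≠ b ∧ Inc a l ∧ Inc b l ∧ ¬ Inc a m ∧ ¬ Inc b m := by
  decide
theorem f4 : ∀ x m : ZMod 7, ∃ l l', l ≠ l' ∧ l ≠ m ∧ l' ≠ m ∧ Inc x l ∧ Inc x l' := by decide
theorem f5 : ∀ x : ZMod 7, ∃ y, Inc x y := by decide
theorem f6 : ∀ y y' : ZMod 7, ∃ x, Inc x y ∧ Inc x y' := by decide
theorem f7 : ∀ y : ZMod 7, ∃ x x', x ≠ x' ∧ Inc x y ∧ Inc x' y := by decide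

/-- swapping the two copies, by the automorphism `x ↦ a x + b` of the Fano plane and its inverse -/
def swapPerm (σ : Perm (ZMod 7)) : Perm (Bool × ZMod 7) where
  toFun p := match p with
    | (false, x) => (true, σ x)
    | (true, x) => (false, σ⁻¹ x)
  invFun p := match p with
    | (false, x) => (true, σ x)
    | (true, x) => (false, σ⁻¹ x)
  left_inv := by rintro ⟨_ | _, x⟩ <;> simp
  right_inv := by rintro ⟨_ | _, x⟩ <;> simp

/-- a collineation of the Fano plane -/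
def IsCol (σ τ : Perm (ZMod 7)) : Prop := ∀ x y, Inc (σ x) (τ y) ↔ Inc x y

theorem swap_mem (σ τ : Perm (ZMod 7)) (h : IsCol σ τ) :
    (swapPerm σ, swapPerm τ) ∈ twoHeawood.Aut := by
  rintro ⟨_ | _, x⟩ ⟨_ | _, y⟩
  · change (true = true ∧ Inc (σ x) (τ y)) ↔ (false = false ∧ Inc x y)
    simp [h x y]
  · change (true = false ∧ _) ↔ (false = true ∧ _)
    simp
  · change (false = true ∧ _) ↔ (true = false ∧ _)
    simp
  · change (false = false ∧ Inc (σ⁻¹ x) (τ⁻¹ y)) ↔ (true = true ∧ Inc x y)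
    have := h (σ.symm x) (τ.symm y)
    simp only [Equiv.apply_symm_apply] at this
    have h2 : Inc (σ⁻¹ x) (τ⁻¹ y) ↔ Inc x y := this.symm
    exact ⟨fun q => ⟨rfl, h2.1 q.2⟩, fun q => ⟨rfl, h2.2 q.2⟩⟩

/-- the copy of a vertex -/
def copy : (Bool × ZMod 7) ⊕ (Bool × ZMod 7) → Bool
  | Sum.inl v => v.1
  | Sum.inr w => w.1

theorem copy_adj {x y : (Bool × ZMod 7) ⊕ (Bool × ZMod 7)} (h : twoHeawood.graph.Adj x y) :
    copy x = copy y := by
  rcases x with v | w <;> rcases y with v' | w'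
  · exact h.elim
  · exact h.1
  · exact h.1.symm
  · exact h.elim

theorem copy_act (σ τ : Perm (ZMod 7)) (x : (Bool × ZMod 7) ⊕ (Bool × ZMod 7)) :
    copy (act (swapPerm σ, swapPerm τ) x) = !copy x := by
  rcases x with ⟨_ | _, x⟩ | ⟨_ | _, x⟩ <;> rfl

theorem swap_fix (σ τ : Perm (ZMod 7)) : fixed (swapPerm σ, swapPerm τ) = ∅ := by
  ext x
  simp only [fixed, Set.mem_ofPred_eq, Set.mem_empty_iff_false, iff_false]
  intro h
  have := copy_act σ τ x
  rw [h] at this
  cases hc : copy x <;> simp [hc] at this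

theorem reach_copy {φ : Perm (Bool × ZMod 7) × Perm (Bool × ZMod 7)}
    {x y : ((fixed φ)ᶜ : Set ((Bool × ZMod 7) ⊕ (Bool × ZMod 7)))}
    (h : (twoHeawood.rest φ).Reachable x y) : copy x.1 = copy y.1 := by
  obtain ⟨p⟩ := h
  induction p with
  | nil => rfl
  | cons hadj _ ih => exact (copy_adj hadj).trans ih

theorem swap_sq (σ : Perm (ZMod 7)) : swapPerm σ * swapPerm σ = 1 := by
  ext p
  · rcases p with ⟨_ | _, x⟩ <;> simp [swapPerm]
  · rcases p with ⟨_ | _, x⟩ <;> simp [swapPerm]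

/-- swaps of the two copies are folds -/
theorem swap_fold (σ τ : Perm (ZMod 7)) (h : IsCol σ τ) :
    twoHeawood.IsFold (swapPerm σ, swapPerm τ) {x | copy x = false} := by
  set φ : Perm (Bool × ZMod 7) × Perm (Bool × ZMod 7) := (swapPerm σ, swapPerm τ) with hφ
  have hfix : fixed φ = ∅ := swap_fix σ τ
  have hmem : ∀ x, x ∈ (fixed φ)ᶜ := by
    intro x
    rw [hfix]
    simp
  have himg : act φ '' {x | copy x = false} = {x | copy x = true} := by
    have hsq : ∀ x, act φ (act φ x) = x := by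
      intro x
      have h1 : ∀ p, swapPerm σ (swapPerm σ p) = p := fun p => by
        have := congrArg (fun e : Perm _ => e p) (swap_sq σ)
        simpa using this
      have h2 : ∀ p, swapPerm τ (swapPerm τ p) = p := fun p => by
        have := congrArg (fun e : Perm _ => e p) (swap_sq τ)
        simpa using this
      rcases x with v | w
      · simp [act, hφ, h1]
      · simp [act, hφ, h2]
    ext x
    constructor
    · rintro ⟨y, hy, rfl⟩
      have := copy_act σ τ y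
      simp only [Set.mem_ofPred_eq] at hy ⊢
      rw [this, hy]
      rfl
    · intro hx
      refine ⟨act φ x, ?_, hsq x⟩
      have := copy_act σ τ x
      simp only [Set.mem_ofPred_eq] at hx ⊢
      rw [this, hx]
      rfl
  refine ⟨⟨swap_mem σ τ h, ?_, ?_, ?_⟩, ?_, ?_, ?_, ?_, ?_⟩
  · intro h1
    have : swapPerm σ = 1 := congrArg Prod.fst h1
    have := congrArg (fun e : Perm (Bool × ZMod 7) => (e (false, 0)).1) this
    simp [swapPerm] at this
  · exact Prod.ext (swap_sq σ) (swap_sq τ)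
  · intro hc
    have := reach_copy (hc ⟨Sum.inl (false, 0), hmem _⟩ ⟨Sum.inl (true, 0), hmem _⟩)
    simp [copy] at this
  · refine ⟨{c | ∃ x : ((fixed φ)ᶜ : Set ((Bool × ZMod 7) ⊕ (Bool × ZMod 7))),
      copy x.1 = false ∧ (twoHeawood.rest φ).connectedComponentMk x = c}, ?_⟩
    ext x
    constructor
    · intro hx
      exact ⟨hmem x, ⟨x, hmem x⟩, hx, rfl⟩
    · rintro ⟨hx, y, hy, hyx⟩
      have := reach_copy (SimpleGraph.ConnectedComponent.exact hyx)
      rw [hy] at this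
      exact this.symm
  · rw [hfix]
    exact Set.disjoint_empty _
  · rw [himg, Set.disjoint_left]
    intro x hx hx'
    simp only [Set.mem_ofPred_eq] at hx hx'
    rw [hx] at hx'
    cases hx'
  · rw [hfix]
    exact Set.empty_disjoint _
  · rw [himg, hfix]
    ext x
    simp only [Set.union_empty, Set.mem_union, Set.mem_ofPred_eq, Set.mem_univ, iff_true]
    cases copy x <;> simp


/-! ### facts about the graph -/

theorem g1 (x x' : Bool × ZMod 7) (h : x.1 = x'.1) (hne : x ≠ x') :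
    ∃ y, twoHeawood.E x y ∧ twoHeawood.E x' y := by
  obtain ⟨i, a⟩ := x
  obtain ⟨j, b⟩ := x'
  simp only at h
  subst h
  obtain ⟨y, h1, h2⟩ := f1 a b (fun h => hne (by rw [h]))
  exact ⟨(i, y), ⟨rfl, h1⟩, ⟨rfl, h2⟩⟩

theorem g1' {x x' y y' : Bool × ZMod 7} (hne : x ≠ x') (h1 : twoHeawood.E x y)
    (h2 : twoHeawood.E x' y) (h3 : twoHeawood.E x y') (h4 : twoHeawood.E x' y') : y = y' := by
  obtain ⟨i, a⟩ := x
  obtain ⟨j, b⟩ := x'
  obtain ⟨k, c⟩ := y
  obtain ⟨l, d⟩ := y'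
  obtain ⟨e1, q1⟩ := h1
  obtain ⟨e2, q2⟩ := h2
  obtain ⟨e3, q3⟩ := h3
  obtain ⟨e4, q4⟩ := h4
  simp only at e1 e2 e3 e4
  subst e1 e2 e3
  have := f1' a b c d (fun h => hne (by rw [h])) q1 q2 q3 q4
  rw [this]

theorem g3 (m l : Bool × ZMod 7) (h : m.1 = l.1) (hne : l ≠ m) :
    ∃ a b, a ≠ b ∧ twoHeawood.E a l ∧ twoHeawood.E b l ∧ ¬ twoHeawood.E a m ∧
      ¬ twoHeawood.E b m := by
  obtain ⟨i, m⟩ := m
  obtain ⟨j, l⟩ := l
  simp only at h
  subst h
  obtain ⟨a, b, h1, h2, h3, h4, h5⟩ := f3 m l (fun h => hne (by rw [h]))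
  exact ⟨(i, a), (i, b), fun h => h1 (congrArg Prod.snd h), ⟨rfl, h2⟩, ⟨rfl, h3⟩,
    fun h => h4 h.2, fun h => h5 h.2⟩

theorem g4 (x m : Bool × ZMod 7) (h : x.1 = m.1) :
    ∃ l l', l ≠ l' ∧ l ≠ m ∧ l' ≠ m ∧ twoHeawood.E x l ∧ twoHeawood.E x l' := by
  obtain ⟨i, x⟩ := x
  obtain ⟨j, m⟩ := m
  simp only at h
  subst h
  obtain ⟨a, b, h1, h2, h3, h4, h5⟩ := f4 x m
  exact ⟨(i, a), (i, b), fun h => h1 (congrArg Prod.snd h), fun h => h2 (congrArg Prod.snd h),
    fun h => h3 (congrArg Prod.snd h), ⟨rfl, h4⟩, ⟨rfl, h5⟩⟩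

theorem g7 (y : Bool × ZMod 7) : ∃ x x', x ≠ x' ∧ twoHeawood.E x y ∧ twoHeawood.E x' y := by
  obtain ⟨i, y⟩ := y
  obtain ⟨a, b, h1, h2, h3⟩ := f7 y
  exact ⟨(i, a), (i, b), fun h => h1 (congrArg Prod.snd h), ⟨rfl, h2⟩, ⟨rfl, h3⟩⟩

section Fold

variable {φ : Perm (Bool × ZMod 7) × Perm (Bool × ZMod 7)}
  {L : Set ((Bool × ZMod 7) ⊕ (Bool × ZMod 7))}

theorem copy_const (hA : φ ∈ twoHeawood.Aut) (x : Bool × ZMod 7) :
    (φ.1 x).1 = (φ.1 (x.1, 0)).1 := by
  by_cases h : x = (x.1, 0)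
  · rw [← h]
  · obtain ⟨y, h1, h2⟩ := g1 x (x.1, 0) rfl h
    have h3 := (hA x y).2 h1
    have h4 := (hA (x.1, 0) y).2 h2
    exact h3.1.trans h4.1.symm

theorem copy_line (hA : φ ∈ twoHeawood.Aut) (y : Bool × ZMod 7) :
    (φ.2 y).1 = (φ.1 (y.1, 0)).1 := by
  obtain ⟨x, _, _, h1, _⟩ := g7 y
  have h3 := (hA x y).2 h1
  rw [← h3.1, copy_const hA x, h1.1]

theorem sq1 (h : φ * φ = 1) (x : Bool × ZMod 7) : φ.1 (φ.1 x) = x := by
  have : (φ * φ).1 x = x := by rw [h]; rfl
  exact this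

theorem sq2 (h : φ * φ = 1) (x : Bool × ZMod 7) : φ.2 (φ.2 x) = x := by
  have : (φ * φ).2 x = x := by rw [h]; rfl
  exact this

theorem act_act (h : φ * φ = 1) (x : (Bool × ZMod 7) ⊕ (Bool × ZMod 7)) :
    act φ (act φ x) = x := by
  rcases x with x | x
  · exact congrArg Sum.inl (sq1 h x)
  · exact congrArg Sum.inr (sq2 h x)

theorem adj_act (hA : φ ∈ twoHeawood.Aut) {x y : (Bool × ZMod 7) ⊕ (Bool × ZMod 7)}
    (h : twoHeawood.graph.Adj x y) : twoHeawood.graph.Adj (act φ x) (act φ y) := by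
  rcases x with x | x <;> rcases y with y | y
  · exact h.elim
  · exact (hA x y).2 h
  · exact (hA y x).2 h
  · exact h.elim

theorem closedL (hF : twoHeawood.IsFold φ L) {x y : (Bool × ZMod 7) ⊕ (Bool × ZMod 7)}
    (hx : x ∈ L) (hy : y ∉ fixed φ) (h : twoHeawood.graph.Adj x y) : y ∈ L := by
  obtain ⟨C, hC⟩ := hF.2.1
  rw [hC] at hx ⊢
  obtain ⟨hx', hxC⟩ := hx
  refine ⟨hy, ?_⟩
  have : (twoHeawood.rest φ).connectedComponentMk ⟨y, hy⟩ =
      (twoHeawood.rest φ).connectedComponentMk ⟨x, hx'⟩ := by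
    apply SimpleGraph.ConnectedComponent.sound
    exact (SimpleGraph.Adj.reachable (G := twoHeawood.rest φ) (u := ⟨x, hx'⟩) (v := ⟨y, hy⟩) h).symm
  rw [this]
  exact hxC

theorem mem_or (hF : twoHeawood.IsFold φ L) {x : (Bool × ZMod 7) ⊕ (Bool × ZMod 7)}
    (hx : x ∉ fixed φ) : x ∈ L ∨ act φ x ∈ L := by
  have h := hF.2.2.2.2.2
  have : x ∈ L ∪ fixed φ ∪ act φ '' L := by rw [h]; trivial
  rcases this with (h1 | h1) | ⟨z, hz, rfl⟩
  · exact Or.inl h1
  · exact absurd h1 hx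
  · right
    rw [act_act hF.1.2.2.1]
    exact hz

theorem not_both (hF : twoHeawood.IsFold φ L) {x : (Bool × ZMod 7) ⊕ (Bool × ZMod 7)}
    (hx : x ∈ L) : act φ x ∉ L := by
  intro h
  exact Set.disjoint_left.1 hF.2.2.2.1 h ⟨x, hx, rfl⟩

theorem not_fix (hF : twoHeawood.IsFold φ L) {x : (Bool × ZMod 7) ⊕ (Bool × ZMod 7)}
    (hx : x ∈ L) : x ∉ fixed φ := fun h => Set.disjoint_left.1 hF.2.2.1 hx h

/-- a common neighbour of a vertex of `L` and of a vertex of `φ(L)` is fixed -/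
theorem common (hF : twoHeawood.IsFold φ L) {x y z : (Bool × ZMod 7) ⊕ (Bool × ZMod 7)}
    (hx : x ∈ L) (hy : act φ y ∈ L) (h1 : twoHeawood.graph.Adj x z)
    (h2 : twoHeawood.graph.Adj y z) : z ∈ fixed φ := by
  by_contra hz
  have h3 := closedL hF hx hz h1
  have hz' : act φ z ∉ fixed φ := by
    intro h
    apply hz
    have h' : act φ (act φ z) = act φ z := h
    rw [act_act hF.1.2.2.1] at h'
    exact h'.symm
  have h4 := closedL hF hy hz' (adj_act hF.1.1 h2)
  exact not_both hF h3 h4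

theorem id_case (hF : twoHeawood.IsFold φ L) (hc : ∀ x : Bool × ZMod 7, (φ.1 x).1 = x.1)
    (hc2 : ∀ x : Bool × ZMod 7, (φ.2 x).1 = x.1) : False := by
  have hA := hF.1.1
  have hsq := hF.1.2.2.1
  -- all points are fixed
  have key : ∀ u : Bool × ZMod 7, (Sum.inl u : (Bool × ZMod 7) ⊕ (Bool × ZMod 7)) ∉ L := by
    intro u hu
    have hne : u ≠ φ.1 u := by
      intro h
      exact not_fix hF hu (congrArg Sum.inl h.symm)
    obtain ⟨m, hm1, hm2⟩ := g1 u (φ.1 u) (hc u).symm hne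
    have hv : act φ (Sum.inl (φ.1 u)) ∈ L := by
      change Sum.inl (φ.1 (φ.1 u)) ∈ L
      rw [sq1 hsq]
      exact hu
    have hmf : (Sum.inr m : (Bool × ZMod 7) ⊕ (Bool × ZMod 7)) ∈ fixed φ :=
      common hF (x := Sum.inl u) (y := Sum.inl (φ.1 u)) hu hv hm1 hm2
    have hmf' : φ.2 m = m := Sum.inr_injective hmf
    -- nonfixed points are on `m`
    have on1 : ∀ w : Bool × ZMod 7, w.1 = u.1 → act φ (Sum.inl w) ∈ L → twoHeawood.E w m := by
      intro w hw hwL
      have hne2 : u ≠ w := by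
        intro h
        rw [← h] at hwL
        exact not_both hF hu hwL
      obtain ⟨n, hn1, hn2⟩ := g1 u w hw.symm hne2
      have hnf : (Sum.inr n : (Bool × ZMod 7) ⊕ (Bool × ZMod 7)) ∈ fixed φ :=
        common hF (x := Sum.inl u) (y := Sum.inl w) hu hwL hn1 hn2
      have hnf' : φ.2 n = n := Sum.inr_injective hnf
      have h3 := (hA u n).2 hn1
      rw [hnf'] at h3
      have : n = m := g1' hne hn1 h3 hm1 hm2
      rw [← this]
      exact hn2
    have on2 : ∀ w : Bool × ZMod 7, w.1 = u.1 → φ.1 w ≠ w → twoHeawood.E w m := by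
      intro w hw hwf
      have hwf' : (Sum.inl w : (Bool × ZMod 7) ⊕ (Bool × ZMod 7)) ∉ fixed φ :=
        fun h => hwf (Sum.inl_injective h)
      rcases mem_or hF hwf' with h | h
      · have h4 := on1 (φ.1 w) ((hc w).trans hw) (by
          change Sum.inl (φ.1 (φ.1 w)) ∈ L
          rw [sq1 hsq]
          exact h)
        have h5 := (hA (φ.1 w) m).2 h4
        rw [sq1 hsq, hmf'] at h5
        exact h5
      · exact on1 w hw h
    have hmu : m.1 = u.1 := hm1.1.symm
    have lines : ∀ l : Bool × ZMod 7, l.1 = u.1 → l ≠ m → φ.2 l = l := by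
      intro l hl hlm
      obtain ⟨a, b, hab, h1, h2, h3, h4⟩ := g3 m l (hmu.trans hl.symm) hlm
      have ha : φ.1 a = a := by
        by_contra h
        exact h3 (on2 a (h1.1.trans hl) h)
      have hb : φ.1 b = b := by
        by_contra h
        exact h4 (on2 b (h2.1.trans hl) h)
      have h5 := (hA a l).2 h1
      have h6 := (hA b l).2 h2
      rw [ha] at h5
      rw [hb] at h6
      exact g1' hab h5 h6 h1 h2
    obtain ⟨l, l', hll, hlm, hlm', h1, h2⟩ := g4 u m hmu.symm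
    have hl := lines l h1.1.symm hlm
    have hl' := lines l' h2.1.symm hlm'
    have h3 := (hA u l).2 h1
    have h4 := (hA u l').2 h2
    rw [hl] at h3
    rw [hl'] at h4
    exact hll (g1' hne h1 h3 h2 h4)
  have hpts : ∀ u : Bool × ZMod 7, φ.1 u = u := by
    intro u
    by_contra h
    have hu : (Sum.inl u : (Bool × ZMod 7) ⊕ (Bool × ZMod 7)) ∉ fixed φ :=
      fun h' => h (Sum.inl_injective h')
    rcases mem_or hF hu with h1 | h1
    · exact key u h1
    · exact key (φ.1 u) h1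
  have hlns : ∀ l : Bool × ZMod 7, φ.2 l = l := by
    intro l
    obtain ⟨a, b, hab, h1, h2⟩ := g7 l
    have h5 := (hA a l).2 h1
    have h6 := (hA b l).2 h2
    rw [hpts a] at h5
    rw [hpts b] at h6
    exact g1' hab h5 h6 h1 h2
  apply hF.1.2.1
  exact Prod.ext (Equiv.ext hpts) (Equiv.ext hlns)

/-- every fold swaps the two copies, and `L` is one of them -/
theorem structure_fold (hF : twoHeawood.IsFold φ L) :
    (∀ x, copy (act φ x) = !copy x) ∧ ∃ i : Bool, ∀ x, x ∈ L ↔ copy x = i := by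
  have hA := hF.1.1
  have hsq := hF.1.2.2.1
  have hcopy : ∀ x, copy (act φ x) = (φ.1 (copy x, 0)).1 := by
    rintro (x | x)
    · exact copy_const hA x
    · exact copy_line hA x
  have hswap : ∀ x, copy (act φ x) = !copy x := by
    by_cases h0 : (φ.1 (false, 0)).1 = false
    · exfalso
      have h1 : (φ.1 (true, 0)).1 = true := by
        by_contra h
        have h' : (φ.1 (true, 0)).1 = false := by simpa using h
        have h2 := copy_const hA (φ.1 (true, 0))
        rw [h', sq1 hsq, h0] at h2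
        cases h2
      have hc : ∀ i : Bool, (φ.1 (i, 0)).1 = i := by
        intro i
        cases i
        · exact h0
        · exact h1
      exact id_case hF (fun x => (copy_const hA x).trans (hc _))
        (fun x => (copy_line hA x).trans (hc _))
    · have h0' : (φ.1 (false, 0)).1 = true := by simpa using h0
      have h1 : (φ.1 (true, 0)).1 = false := by
        have h2 := copy_const hA (φ.1 (false, 0))
        rw [h0', sq1 hsq] at h2
        exact h2.symm
      intro x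
      rw [hcopy]
      cases copy x
      · exact h0'
      · exact h1
  refine ⟨hswap, ?_⟩
  have hnofix : ∀ x, x ∉ fixed φ := by
    intro x hx
    have h1 := hswap x
    have h2 : act φ x = x := hx
    rw [h2] at h1
    cases h : copy x <;> simp [h] at h1
  have step : ∀ x y, twoHeawood.graph.Adj x y → (x ∈ L ↔ y ∈ L) := fun x y h =>
    ⟨fun hx => closedL hF hx (hnofix y) h, fun hy => closedL hF hy (hnofix x) h.symm⟩
  have const : ∀ x, (x ∈ L ↔ (Sum.inl (copy x, 0) : (Bool × ZMod 7) ⊕ (Bool × ZMod 7)) ∈ L) := by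
    have hp : ∀ x : Bool × ZMod 7, ((Sum.inl x : (Bool × ZMod 7) ⊕ (Bool × ZMod 7)) ∈ L ↔
        (Sum.inl (x.1, 0) : (Bool × ZMod 7) ⊕ (Bool × ZMod 7)) ∈ L) := by
      intro x
      by_cases h : x = (x.1, 0)
      · rw [← h]
      · obtain ⟨y, h1, h2⟩ := g1 x (x.1, 0) rfl h
        exact (step (Sum.inl x) (Sum.inr y) h1).trans (step (Sum.inl (x.1, 0)) (Sum.inr y) h2).symm
    rintro (x | y)
    · exact hp x
    · obtain ⟨x, _, _, h1, _⟩ := g7 y
      have h2 := (step (Sum.inl x) (Sum.inr y) h1).symm.trans (hp x)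
      rw [h1.1] at h2
      exact h2
  by_cases h0 : (Sum.inl (false, 0) : (Bool × ZMod 7) ⊕ (Bool × ZMod 7)) ∈ L
  · refine ⟨false, fun x => ?_⟩
    rw [const x]
    cases h : copy x
    · simp [h0]
    · simp only [Bool.true_eq_false, iff_false]
      intro h1
      have h2 := not_both hF h0
      rw [const, hswap] at h2
      exact h2 h1
  · refine ⟨true, fun x => ?_⟩
    rw [const x]
    cases h : copy x
    · simp [h0]
    · simp only [iff_true]
      rcases mem_or hF (hnofix (Sum.inl (false, 0))) with h1 | h1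
      · exact absurd h1 h0
      · rw [const, hswap] at h1
        exact h1

end Fold

/-- at most one edge in each copy -/
def Thin (F : Set ((Bool × ZMod 7) × (Bool × ZMod 7))) : Prop :=
  ∀ e ∈ F, ∀ f ∈ F, e ∈ twoHeawood.edges → f ∈ twoHeawood.edges → e.1.1 = f.1.1 → e = f

theorem thin_step {φ : Perm (Bool × ZMod 7) × Perm (Bool × ZMod 7)}
    {L : Set ((Bool × ZMod 7) ⊕ (Bool × ZMod 7))} (hF : twoHeawood.IsFold φ L)
    (F : Set ((Bool × ZMod 7) × (Bool × ZMod 7))) (hT : Thin F) (hE : F ⊆ twoHeawood.edges) :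
    Thin (twoHeawood.preimage φ L F) := by
  obtain ⟨hswap, i, hi⟩ := structure_fold hF
  rintro e ⟨he, f, hf, hf1, hf2⟩ e' ⟨he', f', hf', hf1', hf2'⟩ _ _ hc
  by_cases h : e.1.1 = i
  · have m1 : (Sum.inl e.1 : (Bool × ZMod 7) ⊕ (Bool × ZMod 7)) ∈ L := (hi _).2 h
    have m2 : (Sum.inr e.2 : (Bool × ZMod 7) ⊕ (Bool × ZMod 7)) ∈ L := (hi _).2 (he.1.symm.trans h)
    have m1' : (Sum.inl e'.1 : (Bool × ZMod 7) ⊕ (Bool × ZMod 7)) ∈ L := (hi _).2 (hc.symm.trans h)
    have m2' : (Sum.inr e'.2 : (Bool × ZMod 7) ⊕ (Bool × ZMod 7)) ∈ L :=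
      (hi _).2 (he'.1.symm.trans (hc.symm.trans h))
    unfold foldMap at hf1 hf2 hf1' hf2'
    rw [if_pos m1] at hf1
    rw [if_pos m2] at hf2
    rw [if_pos m1'] at hf1'
    rw [if_pos m2'] at hf2'
    have e1 : e = f := Prod.ext (Sum.inl_injective hf1) (Sum.inr_injective hf2)
    have e2 : e' = f' := Prod.ext (Sum.inl_injective hf1') (Sum.inr_injective hf2')
    rw [e1, e2] at hc ⊢
    exact hT f hf f' hf' (hE hf) (hE hf') hc
  · have m1 : (Sum.inl e.1 : (Bool × ZMod 7) ⊕ (Bool × ZMod 7)) ∉ L := fun h' => h ((hi _).1 h')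
    have m2 : (Sum.inr e.2 : (Bool × ZMod 7) ⊕ (Bool × ZMod 7)) ∉ L :=
      fun h' => h (he.1.trans ((hi _).1 h'))
    have m1' : (Sum.inl e'.1 : (Bool × ZMod 7) ⊕ (Bool × ZMod 7)) ∉ L :=
      fun h' => h (hc.trans ((hi _).1 h'))
    have m2' : (Sum.inr e'.2 : (Bool × ZMod 7) ⊕ (Bool × ZMod 7)) ∉ L :=
      fun h' => h (hc.trans (he'.1.trans ((hi _).1 h')))
    unfold foldMap at hf1 hf2 hf1' hf2'
    rw [if_neg m1] at hf1
    rw [if_neg m2] at hf2
    rw [if_neg m1'] at hf1'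
    rw [if_neg m2'] at hf2'
    have a1 : φ.1 e.1 = f.1 := Sum.inl_injective hf1
    have a2 : φ.2 e.2 = f.2 := Sum.inr_injective hf2
    have a1' : φ.1 e'.1 = f'.1 := Sum.inl_injective hf1'
    have a2' : φ.2 e'.2 = f'.2 := Sum.inr_injective hf2'
    have hcc : f.1.1 = f'.1.1 := by
      have b1 : (φ.1 e.1).1 = !e.1.1 := hswap (Sum.inl e.1)
      have b2 : (φ.1 e'.1).1 = !e'.1.1 := hswap (Sum.inl e'.1)
      rw [← a1, ← a1', b1, b2, hc]
    have hff := hT f hf f' hf' (hE hf) (hE hf') hcc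
    rw [← hff] at a1' a2'
    exact Prod.ext (φ.1.injective (a1.trans a1'.symm)) (φ.2.injective (a2.trans a2'.symm))

theorem not_cutPercolating : ¬ twoHeawood.CutPercolating := by
  rintro ⟨m, S, ⟨e, he, hS0⟩, hSm, hstep⟩
  have h : ∀ i ≤ m, Thin (S i) ∧ S i ⊆ twoHeawood.edges := by
    intro i
    induction i with
    | zero =>
      intro _
      rw [hS0]
      refine ⟨?_, by simpa using he⟩
      intro a ha b hb _ _ _
      rw [Set.mem_singleton_iff] at ha hb
      rw [ha, hb]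
    | succ i ih =>
      intro hi
      obtain ⟨h1, h2⟩ := ih (by omega)
      obtain ⟨φ, L, hF, hS⟩ := hstep i (by omega)
      rw [hS]
      exact ⟨thin_step hF _ h1 h2, fun x hx => hx.1⟩
  have hT := (h m le_rfl).1
  rw [hSm] at hT
  have e1 : (((false, 0), (false, 1)) : (Bool × ZMod 7) × (Bool × ZMod 7)) ∈ twoHeawood.edges :=
    ⟨rfl, by decide⟩
  have e2 : (((false, 0), (false, 2)) : (Bool × ZMod 7) × (Bool × ZMod 7)) ∈ twoHeawood.edges :=
    ⟨rfl, by decide⟩
  have := hT _ e1 _ e2 e1 e2 rfl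
  have h3 : (1 : ZMod 7) = 2 := congrArg (fun z => z.2.2) this
  exact absurd h3 (by decide)


theorem ex_uv : ∀ d d' : ZMod 7, (d = 1 ∨ d = 2 ∨ d = 4) → (d' = 1 ∨ d' = 2 ∨ d' = 4) →
    ∃ u v : ZMod 7, u * v = 1 ∧ u * d = d' ∧
      ∀ t, ((u * t = 1 ∨ u * t = 2 ∨ u * t = 4) ↔ (t = 1 ∨ t = 2 ∨ t = 4)) := by
  decide

/-- `z ↦ u z + c` -/
def aff (u v c : ZMod 7) (h : u * v = 1) : Perm (ZMod 7) where
  toFun z := u * z + c
  invFun z := v * (z - c)
  left_inv z := by
    have : v * (u * z + c - c) = (u * v) * z := by ring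
    change v * (u * z + c - c) = z
    rw [this, h, one_mul]
  right_inv z := by
    have : u * (v * (z - c)) + c = (u * v) * (z - c) + c := by ring
    change u * (v * (z - c)) + c = z
    rw [this, h]
    ring

/-- the collineations are transitive on the flags -/
theorem ex_col (x y x' y' : ZMod 7) (h : Inc x y) (h' : Inc x' y') :
    ∃ σ τ : Perm (ZMod 7), IsCol σ τ ∧ σ x = x' ∧ τ y = y' := by
  obtain ⟨u, v, huv, hd, ht⟩ := ex_uv (y - x) (y' - x') h h'
  refine ⟨aff u v (x' - u * x) huv, aff u v (x' - u * x) huv, ?_, ?_, ?_⟩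
  · intro a b
    have e : (aff u v (x' - u * x) huv) b - (aff u v (x' - u * x) huv) a = u * (b - a) := by
      change u * b + (x' - u * x) - (u * a + (x' - u * x)) = u * (b - a)
      ring
    unfold Inc
    rw [e]
    exact ht (b - a)
  · change u * x + (x' - u * x) = x'
    ring
  · change u * y + (x' - u * x) = y'
    have : u * y + (x' - u * x) = u * (y - x) + x' := by ring
    rw [this, hd]
    ring

theorem swap_in (σ τ : Perm (ZMod 7)) (h : IsCol σ τ) :
    (swapPerm σ, swapPerm τ) ∈ twoHeawood.foldGroup :=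
  Subgroup.subset_closure ⟨_, swap_fold σ τ h⟩

theorem isCol_one : IsCol 1 1 := fun _ _ => Iff.rfl

theorem foldTransitive : twoHeawood.FoldTransitive := by
  refine ⟨⟨((false, 0), (false, 1)), rfl, by decide⟩, ?_⟩
  rintro ⟨⟨i, x⟩, ⟨i', y⟩⟩ ⟨he1, he2⟩ ⟨⟨j, x'⟩, ⟨j', y'⟩⟩ ⟨hf1, hf2⟩
  simp only at he1 he2 hf1 hf2
  subst he1 hf1
  cases i
  · cases j
    · obtain ⟨σ, τ, hc, h1, h2⟩ := ex_col x y x' y' he2 hf2
      refine ⟨(swapPerm 1, swapPerm 1) * (swapPerm σ, swapPerm τ),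
        mul_mem (swap_in 1 1 isCol_one) (swap_in σ τ hc), ?_, ?_⟩
      · change ((false, σ x) : Bool × ZMod 7) = (false, x')
        rw [h1]
      · change ((false, τ y) : Bool × ZMod 7) = (false, y')
        rw [h2]
    · obtain ⟨σ, τ, hc, h1, h2⟩ := ex_col x y x' y' he2 hf2
      refine ⟨(swapPerm σ, swapPerm τ), swap_in σ τ hc, ?_, ?_⟩
      · change ((true, σ x) : Bool × ZMod 7) = (true, x')
        rw [h1]
      · change ((true, τ y) : Bool × ZMod 7) = (true, y')
        rw [h2]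
  · cases j
    · obtain ⟨σ, τ, hc, h1, h2⟩ := ex_col x' y' x y hf2 he2
      refine ⟨(swapPerm σ, swapPerm τ), swap_in σ τ hc, ?_, ?_⟩
      · change ((false, σ.symm x) : Bool × ZMod 7) = (false, x')
        rw [← h1, Equiv.symm_apply_apply]
      · change ((false, τ.symm y) : Bool × ZMod 7) = (false, y')
        rw [← h2, Equiv.symm_apply_apply]
    · obtain ⟨σ, τ, hc, h1, h2⟩ := ex_col x y x' y' he2 hf2
      refine ⟨(swapPerm σ, swapPerm τ) * (swapPerm 1, swapPerm 1),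
        mul_mem (swap_in σ τ hc) (swap_in 1 1 isCol_one), ?_, ?_⟩
      · change ((true, σ x) : Bool × ZMod 7) = (true, x')
        rw [h1]
      · change ((true, τ y) : Bool × ZMod 7) = (true, y')
        rw [h2]

/-- The bigraph consisting of two disjoint copies of the Heawood graph is edge-transitive under the
group generated by its fold involutions, but it is not cut-percolating.  In particular it is not
true that a finite bigraph is cut-percolating whenever it is edge-transitive under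
`Γ_fold(G)`. -/
theorem result : (twoHeawood.FoldTransitive ∧ ¬ twoHeawood.CutPercolating) ∧
    ¬ ∀ (V₁ V₂ : Type) [Finite V₁] [Finite V₂] (G : Bigraph V₁ V₂),
      G.CutPercolating ↔ G.FoldTransitive := by
  refine ⟨⟨foldTransitive, not_cutPercolating⟩, ?_⟩
  intro h
  exact not_cutPercolating ((h _ _ twoHeawood).2 foldTransitive)

end Pool.Agent.Results.MP_98b297_co.TwoHeawoodGraphs
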